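import Pool.Agent.Y461.LS.Main

/-!
# MP_1c9258_gt: a non-reflecting stationary set gives a compact space which is not Corson compact
and has Corson (even Eberlein) compact closures of small sets
-/

set_option autoImplicit false

open Cardinal

namespace Pool.Agent.Results.MP_1c9258_gt.NonReflectingLadders

open Pool.Agent.Y461.LS

/-- Let `μ` be an infinite cardinal (for the problem: the continuum), and let `Ω` be a well-ordered
set in which all subsets of cardinality at most `μ` are bounded (for instance a regular cardinal
above `μ`). If some stationary set `E` of points of cofinality `ω` of `Ω` does not reflect, then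
there is a compact Hausdorff space which is not Corson compact, although the closure of each of its
subsets of cardinality at most `μ` is Eberlein compact and Corson compact. -/
theorem result {Ω : Type} [LinearOrder Ω] [WellFoundedLT Ω] {E : Set Ω} (hS : Stationary E)
    (hE : CofOmega E) (hNR : NonReflecting E) {μ : Cardinal.{0}} (hμ : ℵ₀ ≤ μ)
    (hB : SmallBounded Ω μ) :
    ∃ (X : Type) (_ : TopologicalSpace X), CompactSpace X ∧ T2Space X ∧ ¬ Corson X ∧
      ∀ S : Set X, #S ≤ μ → Eberlein (closure S) ∧ Corson (closure S) := by
  obtain ⟨X, τ, h1, h2, h3, -, h4⟩ := main hS hE hNR hμ hB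
  refine ⟨X, τ, h1, h2, h3, fun S hS => ⟨h4 S hS, ?_⟩⟩
  have : CompactSpace (closure S) := isCompact_iff_compactSpace.mp isClosed_closure.isCompact
  exact (h4 S hS).corson

end Pool.Agent.Results.MP_1c9258_gt.NonReflectingLadders
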